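import Mathlib

set_option autoImplicit false

/-!
# Baire: one vector which is bad for countably many unbounded operators
-/

namespace Pool.Agent.Bai

open MeasureTheory Set Filter
open scoped ENNReal NNReal Topology

/-- Let `Φ i` be countably many linear maps from a Banach space to measurable functions, bounded
into the bounded functions. If none is bounded into `L^p`, then there is one vector whose images
are all outside `L^p`. -/
theorem abs_baire {X Ω : Type*} [NormedAddCommGroup X] [NormedSpace ℝ X] [CompleteSpace X]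
    [MeasurableSpace Ω] (μ : Measure Ω) (p : ℝ≥0∞) (hp : 1 ≤ p) {ι : Type*} [Countable ι]
    (Φ : ι → X → Ω → ℂ) (hm : ∀ i F, AEStronglyMeasurable (Φ i F) μ)
    (hadd : ∀ i F G ω, Φ i (F + G) ω = Φ i F ω + Φ i G ω)
    (hsmul : ∀ i (c : ℝ) F ω, Φ i (c • F) ω = (c : ℂ) * Φ i F ω)
    (hb : ∀ i, ∃ K : ℝ, ∀ F ω, ‖Φ i F ω‖ ≤ K * ‖F‖)
    (hbad : ∀ i, ¬ ∃ C : ℝ≥0, ∀ F, eLpNorm (Φ i F) p μ ≤ C * ‖F‖ₑ) :
    ∃ F, ∀ i, eLpNorm (Φ i F) p μ = ⊤ := by
  by_contra hno
  push Not at hno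
  have hsub : ∀ i F G ω, Φ i (F - G) ω = Φ i F ω - Φ i G ω := by
    intro i F G ω
    have h := hadd i (F - G) G ω
    rw [sub_add_cancel] at h
    rw [h]; ring
  -- the closed sets
  have hcl : ∀ q : ι × ℕ, IsClosed {F : X | eLpNorm (Φ q.1 F) p μ ≤ (q.2 : ℝ≥0∞)} := by
    rintro ⟨i, N⟩
    refine IsSeqClosed.isClosed ?_
    intro F F0 hF hlim
    obtain ⟨K, hK⟩ := hb i
    have hpt : ∀ ω, Tendsto (fun n => Φ i (F n) ω) atTop (𝓝 (Φ i F0 ω)) := by
      intro ω
      rw [tendsto_iff_norm_sub_tendsto_zero]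
      have h1 : Tendsto (fun n => K * ‖F n - F0‖) atTop (𝓝 (K * 0)) :=
        (tendsto_iff_norm_sub_tendsto_zero.mp hlim).const_mul K
      rw [mul_zero] at h1
      refine squeeze_zero (fun n => norm_nonneg _) (fun n => ?_) h1
      rw [← hsub]
      exact hK _ _
    have h2 := Lp.eLpNorm_lim_le_liminf_eLpNorm (p := p) (μ := μ) (f := fun n => Φ i (F n))
      (fun n => hm i (F n)) (Φ i F0) (Eventually.of_forall hpt)
    refine h2.trans ?_
    have h3 : liminf (fun n => eLpNorm (Φ i (F n)) p μ) atTop ≤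
        liminf (fun _ : ℕ => (N : ℝ≥0∞)) atTop := liminf_le_liminf (Eventually.of_forall hF)
    simpa using h3
  have hU : (⋃ q : ι × ℕ, {F : X | eLpNorm (Φ q.1 F) p μ ≤ (q.2 : ℝ≥0∞)}) = univ := by
    refine eq_univ_of_forall fun F => ?_
    obtain ⟨i, hi⟩ := hno F
    obtain ⟨N, hN⟩ := ENNReal.exists_nat_gt hi
    exact mem_iUnion.mpr ⟨(i, N), hN.le⟩
  obtain ⟨⟨i, N⟩, F0, hF0⟩ := nonempty_interior_of_iUnion_of_closed hcl hU
  rw [mem_interior_iff_mem_nhds, Metric.mem_nhds_iff] at hF0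
  obtain ⟨r, hr, hball⟩ := hF0
  have hc0 : eLpNorm (Φ i F0) p μ ≤ N := hball (Metric.mem_ball_self hr)
  have hsmall : ∀ G : X, ‖G‖ < r → eLpNorm (Φ i G) p μ ≤ N + N := by
    intro G hG
    have h1 : F0 + G ∈ Metric.ball F0 r := by
      rw [Metric.mem_ball, dist_eq_norm]
      simpa using hG
    have h2 : eLpNorm (Φ i (F0 + G)) p μ ≤ N := hball h1
    have h3 : Φ i G = fun ω => Φ i (F0 + G) ω - Φ i F0 ω := by
      funext ω
      rw [hadd]; ring
    rw [h3]
    exact (eLpNorm_sub_le (hm i _) (hm i _) hp).trans (add_le_add h2 hc0)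
  refine hbad i ⟨Real.toNNReal (4 * N / r), fun F => ?_⟩
  by_cases hF : ‖F‖ = 0
  · have : Φ i F = fun _ => 0 := by
      funext ω
      obtain ⟨K, hK⟩ := hb i
      have h1 := hK F ω
      rw [hF, mul_zero] at h1
      exact norm_le_zero_iff.mp h1
    rw [this]
    simp
  · have hFp : 0 < ‖F‖ := lt_of_le_of_ne (norm_nonneg _) (Ne.symm hF)
    obtain ⟨c, hc⟩ : ∃ c : ℝ, c = r / 2 / ‖F‖ := ⟨_, rfl⟩
    have hcp : 0 < c := by rw [hc]; positivity
    have h1 : ‖c • F‖ < r := by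
      rw [norm_smul, Real.norm_eq_abs, abs_of_pos hcp, hc, div_mul_cancel₀ _ hF]
      linarith
    have h2 := hsmall (c • F) h1
    have h3 : Φ i F = fun ω => ((c⁻¹ : ℝ) : ℂ) * Φ i (c • F) ω := by
      funext ω
      rw [hsmul, ← mul_assoc, ← Complex.ofReal_mul, inv_mul_cancel₀ hcp.ne', Complex.ofReal_one,
        one_mul]
    have h4 : eLpNorm (Φ i F) p μ = ‖((c⁻¹ : ℝ) : ℂ)‖ₑ * eLpNorm (Φ i (c • F)) p μ := by
      conv_lhs => rw [h3]
      exact eLpNorm_const_smul ((c⁻¹ : ℝ) : ℂ) (Φ i (c • F)) p μ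
    rw [h4]
    calc ‖((c⁻¹ : ℝ) : ℂ)‖ₑ * eLpNorm (Φ i (c • F)) p μ
        ≤ ‖((c⁻¹ : ℝ) : ℂ)‖ₑ * (N + N) := mul_le_mul_right h2 _
      _ = ENNReal.ofReal (c⁻¹ * (N + N)) := by
          rw [← ofReal_norm, Complex.norm_real, Real.norm_eq_abs, abs_of_pos (by positivity),
            ENNReal.ofReal_mul (by positivity), ENNReal.ofReal_add (by positivity) (by positivity),
            ENNReal.ofReal_natCast]
      _ = ENNReal.ofReal (4 * N / r * ‖F‖) := by
          congr 1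
          rw [hc]
          field_simp
          ring
      _ = (Real.toNNReal (4 * N / r) : ℝ≥0∞) * ‖F‖ₑ := by
          rw [ENNReal.ofReal_mul (by positivity), ofReal_norm]
          rfl

end Pool.Agent.Bai
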