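import Pool.Agent.Bai.Abs
import Pool.Agent.Shr.TRN
import Pool.Agent.H27.Fib.Final

set_option autoImplicit false

/-!
# The extension inequality on rectangles; one bad function for countably many transformations
-/

namespace Pool.Agent.Bai

open MeasureTheory Set Filter
open Pool.Agent.Restr (u E)
open Pool.Agent.H27.Fib (enorm_E_le)
open scoped ENNReal NNReal Topology

/-- measurable, supported in the rectangle `[-a, a] × [-b, b]` -/
structure Rc (a b : ℝ) (f : ℝ × ℝ → ℂ) : Prop where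
  m : Measurable f
  s : ∀ x : ℝ × ℝ, f x ≠ 0 → |x.1| ≤ a ∧ |x.2| ≤ b

/-- the extension inequality for such functions -/
def EI (q a b : ℝ) : Prop := ∃ C : ℝ≥0, ∀ f : ℝ × ℝ → ℂ, Rc a b f →
  MemLp f (ENNReal.ofReal q) volume →
    eLpNorm (E f) (ENNReal.ofReal q) volume ≤ C * eLpNorm f (ENNReal.ofReal q) volume

/-- the rectangle -/
def RR (a b : ℝ) : Set (ℝ × ℝ) := Icc (-a) a ×ˢ Icc (-b) b

theorem measurableSet_RR (a b : ℝ) : MeasurableSet (RR a b) :=
  measurableSet_Icc.prod measurableSet_Icc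

theorem volume_RR (a b : ℝ) : volume (RR a b) ≠ ⊤ := by
  unfold RR
  rw [Measure.volume_eq_prod, Measure.prod_prod, Real.volume_Icc, Real.volume_Icc]
  exact ENNReal.mul_ne_top ENNReal.ofReal_ne_top ENNReal.ofReal_ne_top

theorem Rc.mem {a b : ℝ} {f : ℝ × ℝ → ℂ} (h : Rc a b f) {x : ℝ × ℝ} (hx : f x ≠ 0) :
    x ∈ RR a b := by
  obtain ⟨h1, h2⟩ := h.s x hx
  exact ⟨abs_le.mp h1, abs_le.mp h2⟩

theorem Rc.integrable {a b q : ℝ} {f : ℝ × ℝ → ℂ} (h : Rc a b f) (hq : 1 ≤ q)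
    (hf : MemLp f (ENNReal.ofReal q) volume) : Integrable f := by
  have hfin : IsFiniteMeasure (volume.restrict (RR a b)) :=
    ⟨by rw [Measure.restrict_apply_univ]; exact lt_top_iff_ne_top.2 (volume_RR a b)⟩
  have h1 : MemLp f 1 (volume.restrict (RR a b)) :=
    (hf.restrict (RR a b)).mono_exponent (by
      rw [← ENNReal.ofReal_one]
      exact ENNReal.ofReal_le_ofReal hq)
  have h2 : IntegrableOn f (RR a b) := memLp_one_iff_integrable.mp h1
  refine (integrableOn_iff_integrable_of_support_subset ?_).mp h2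
  intro x hx
  exact h.mem hx

theorem Rc.mono {a b a' b' : ℝ} {f : ℝ × ℝ → ℂ} (h : Rc a b f) (ha : a ≤ a') (hb : b ≤ b') :
    Rc a' b' f := ⟨h.m, fun x hx => ⟨(h.s x hx).1.trans ha, (h.s x hx).2.trans hb⟩⟩

theorem EI.mono {q a b a' b' : ℝ} (h : EI q a b) (ha : a' ≤ a) (hb : b' ≤ b) : EI q a' b' := by
  obtain ⟨C, hC⟩ := h
  exact ⟨C, fun f hf => hC f (hf.mono ha hb)⟩

/-- translation -/
theorem mp_shift (c : ℝ × ℝ) :
    MeasurePreserving (fun x : ℝ × ℝ => (x.1 + c.1, x.2 + c.2)) volume volume :=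
  measurePreserving_add_right (volume : Measure (ℝ × ℝ)) c

theorem eLpNorm_shift {f : ℝ × ℝ → ℂ} (hf : Measurable f) (p : ℝ≥0∞) (c : ℝ × ℝ) :
    eLpNorm (fun x : ℝ × ℝ => f (x.1 + c.1, x.2 + c.2)) p volume = eLpNorm f p volume :=
  eLpNorm_comp_measurePreserving hf.aestronglyMeasurable (mp_shift c)

/-- one half of the splitting -/
theorem half {q : ℝ} (hq : 1 ≤ q) {a b a' b' : ℝ} (A : Set (ℝ × ℝ)) (hA : MeasurableSet A)
    (c : ℝ × ℝ)
    (h1 : ∀ x : ℝ × ℝ, (x.1 + c.1, x.2 + c.2) ∈ A → |x.1 + c.1| ≤ a' → |x.2 + c.2| ≤ b' →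
      |x.1| ≤ a ∧ |x.2| ≤ b)
    {C : ℝ≥0} (hC : ∀ f : ℝ × ℝ → ℂ, Rc a b f → MemLp f (ENNReal.ofReal q) volume →
      eLpNorm (E f) (ENNReal.ofReal q) volume ≤ C * eLpNorm f (ENNReal.ofReal q) volume)
    {f : ℝ × ℝ → ℂ} (hf : Rc a' b' f) (hL : MemLp f (ENNReal.ofReal q) volume) :
    eLpNorm (E (A.indicator f)) (ENNReal.ofReal q) volume ≤
      C * eLpNorm f (ENNReal.ofReal q) volume := by
  have hm : Measurable (A.indicator f) := hf.m.indicator hA
  have hg : Rc a b (fun x : ℝ × ℝ => A.indicator f (x.1 + c.1, x.2 + c.2)) := by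
    refine ⟨hm.comp (mp_shift c).measurable, fun x hx => ?_⟩
    have hmem : (x.1 + c.1, x.2 + c.2) ∈ A := by
      by_contra hn
      exact hx (indicator_of_notMem hn _)
    have hx2 : f (x.1 + c.1, x.2 + c.2) ≠ 0 := by
      intro h0
      apply hx
      show A.indicator f (x.1 + c.1, x.2 + c.2) = 0
      rw [indicator_of_mem hmem, h0]
    obtain ⟨h2, h3⟩ := hf.s _ hx2
    exact h1 x hmem h2 h3
  have e1 := Pool.Agent.Shr.p_TRN q (by linarith) (A.indicator f) hm c.1 c.2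
  have e2 := eLpNorm_shift hm (ENNReal.ofReal q) c
  have hLi : MemLp (A.indicator f) (ENNReal.ofReal q) volume := hL.indicator hA
  have hLg : MemLp (fun x : ℝ × ℝ => A.indicator f (x.1 + c.1, x.2 + c.2))
      (ENNReal.ofReal q) volume := ⟨hg.m.aestronglyMeasurable, by rw [e2]; exact hLi.2⟩
  rw [← e1]
  refine (hC _ hg hLg).trans ?_
  rw [e2]
  exact mul_le_mul_right (eLpNorm_indicator_le f) _

/-- splitting into two parts -/
theorem split {q : ℝ} (hq : 1 ≤ q) {a b a' b' : ℝ} (A : Set (ℝ × ℝ)) (hA : MeasurableSet A)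
    (c c' : ℝ × ℝ)
    (h1 : ∀ x : ℝ × ℝ, (x.1 + c.1, x.2 + c.2) ∈ A → |x.1 + c.1| ≤ a' → |x.2 + c.2| ≤ b' →
      |x.1| ≤ a ∧ |x.2| ≤ b)
    (h2 : ∀ x : ℝ × ℝ, (x.1 + c'.1, x.2 + c'.2) ∈ Aᶜ → |x.1 + c'.1| ≤ a' → |x.2 + c'.2| ≤ b' →
      |x.1| ≤ a ∧ |x.2| ≤ b)
    (h : EI q a b) : EI q a' b' := by
  obtain ⟨C, hC⟩ := h
  refine ⟨C + C, fun f hf hL => ?_⟩
  have i1 := half hq A hA c h1 hC hf hL
  have i2 := half hq Aᶜ hA.compl c' h2 hC hf hL
  have hI := hf.integrable hq hL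
  have e : E f = fun ξ => E (A.indicator f) ξ + E (Aᶜ.indicator f) ξ := by
    funext ξ
    rw [← Pool.Agent.H27.Fib.E_add (hI.indicator hA) (hI.indicator hA.compl)]
    congr 1
    funext x
    exact (congrFun (indicator_self_add_compl A f) x).symm
  rw [e]
  refine (eLpNorm_add_le ?_ ?_ ?_).trans ?_
  · exact (Pool.Agent.Restr.measurable_E (hf.m.indicator hA)).aestronglyMeasurable
  · exact (Pool.Agent.Restr.measurable_E (hf.m.indicator hA.compl)).aestronglyMeasurable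
  · rw [← ENNReal.ofReal_one]
    exact ENNReal.ofReal_le_ofReal hq
  · refine (add_le_add i1 i2).trans ?_
    rw [ENNReal.coe_add, add_mul]

theorem dbl {q : ℝ} (hq : 1 ≤ q) {a b : ℝ} (h : EI q a b) : EI q (2 * a) (2 * b) := by
  have h1 : EI q (2 * a) b := by
    refine split hq {x : ℝ × ℝ | 0 ≤ x.1} (measurableSet_le measurable_const measurable_fst)
      (a, 0) (-a, 0) ?_ ?_ h
    · intro x hx h1 h2
      have hx' : 0 ≤ x.1 + a := hx
      have h1' := abs_le.mp h1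
      have h2' : |x.2 + 0| ≤ b := h2
      rw [add_zero] at h2'
      simp only at h1'
      exact ⟨abs_le.mpr ⟨by linarith, by linarith [h1'.2]⟩, h2'⟩
    · intro x hx h1 h2
      have hx' : ¬ 0 ≤ x.1 + -a := hx
      have h1' := abs_le.mp h1
      have h2' : |x.2 + 0| ≤ b := h2
      rw [add_zero] at h2'
      simp only at h1'
      push Not at hx'
      exact ⟨abs_le.mpr ⟨by linarith [h1'.1], by linarith⟩, h2'⟩
  refine split hq {x : ℝ × ℝ | 0 ≤ x.2} (measurableSet_le measurable_const measurable_snd)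
    (0, b) (0, -b) ?_ ?_ h1
  · intro x hx h1 h2
    have hx' : 0 ≤ x.2 + b := hx
    have h1' : |x.1 + 0| ≤ 2 * a := h1
    have h2' := abs_le.mp h2
    rw [add_zero] at h1'
    simp only at h2'
    exact ⟨h1', abs_le.mpr ⟨by linarith, by linarith [h2'.2]⟩⟩
  · intro x hx h1 h2
    have hx' : ¬ 0 ≤ x.2 + -b := hx
    have h1' : |x.1 + 0| ≤ 2 * a := h1
    have h2' := abs_le.mp h2
    rw [add_zero] at h1'
    simp only at h2'
    push Not at hx'
    exact ⟨h1', abs_le.mpr ⟨by linarith [h2'.1], by linarith⟩⟩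

/-- the inequality on a small rectangle gives it on every rectangle -/
theorem EI.all {q : ℝ} (hq : 1 ≤ q) {a b : ℝ} (ha : 0 < a) (hb : 0 < b) (h : EI q a b)
    (a' b' : ℝ) : EI q a' b' := by
  have h1 : ∀ n : ℕ, EI q (2 ^ n * a) (2 ^ n * b) := by
    intro n
    induction n with
    | zero => simpa using h
    | succ n ih =>
      have := dbl hq ih
      rw [pow_succ]
      refine this.mono (le_of_eq (by ring)) (le_of_eq (by ring))
  obtain ⟨n, hn⟩ := pow_unbounded_of_one_lt (max (a' / a) (b' / b)) (show (1 : ℝ) < 2 by norm_num)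
  refine (h1 n).mono ?_ ?_
  · have := (le_max_left (a' / a) (b' / b)).trans hn.le
    rwa [div_le_iff₀ ha] at this
  · have := (le_max_right (a' / a) (b' / b)).trans hn.le
    rwa [div_le_iff₀ hb] at this

end Pool.Agent.Bai
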