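import Pool.Agent.Bai.Inst
import Pool.Agent.Dil.L4A

set_option autoImplicit false

/-!
# Dilates: the exceptional sets are countable for every function iff the inequality holds
-/

namespace Pool.Agent.Bai

open MeasureTheory Set Filter
open Pool.Agent.Restr (u E measurable_u)
open Pool.Agent.Dil (dil)
open scoped ENNReal NNReal Topology

/-- scaling of the norm in the second variable -/
theorem scale_norm (p : ℝ≥0∞) {c : ℝ} (hc : c ≠ 0) : ∃ K : ℝ≥0, ∀ f : ℝ × ℝ → ℂ, Measurable f →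
    eLpNorm (fun x : ℝ × ℝ => f (x.1, c * x.2)) p volume ≤ K * eLpNorm f p volume := by
  by_cases hp : p = ⊤
  · refine ⟨1, fun f hf => ?_⟩
    rw [hp, ENNReal.coe_one, one_mul]
    have h := eLpNorm_map_measure (μ := (volume : Measure (ℝ × ℝ))) (p := ⊤) (g := f)
      (f := fun x : ℝ × ℝ => (x.1, c * x.2)) hf.aestronglyMeasurable (by fun_prop)
    have h2 : eLpNorm (fun x : ℝ × ℝ => f (x.1, c * x.2)) ⊤ volume =
        eLpNorm f ⊤ (Measure.map (fun x : ℝ × ℝ => (x.1, c * x.2)) volume) := h.symm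
    rw [h2, Pool.Agent.Dil.L4A_.map_scale hc, eLpNorm_exponent_top, eLpNorm_exponent_top]
    exact eLpNormEssSup_mono_measure _ (Measure.smul_absolutelyContinuous)
  · refine ⟨(ENNReal.ofReal |c⁻¹| ^ (1 / p).toReal).toNNReal, fun f hf => ?_⟩
    have h := eLpNorm_map_measure (μ := (volume : Measure (ℝ × ℝ))) (p := p) (g := f)
      (f := fun x : ℝ × ℝ => (x.1, c * x.2)) hf.aestronglyMeasurable (by fun_prop)
    have h2 : eLpNorm (fun x : ℝ × ℝ => f (x.1, c * x.2)) p volume =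
        eLpNorm f p (Measure.map (fun x : ℝ × ℝ => (x.1, c * x.2)) volume) := h.symm
    rw [h2, Pool.Agent.Dil.L4A_.map_scale hc, eLpNorm_smul_measure_of_ne_top hp, smul_eq_mul,
      ENNReal.coe_toNNReal]
    exact ENNReal.rpow_ne_top_of_nonneg ENNReal.toReal_nonneg ENNReal.ofReal_ne_top

theorem dil_small {q θ : ℝ} (hθ : 0 < θ)
    (h : ∃ C : ℝ≥0, ∀ f : ℝ × ℝ → ℂ, Rc (1 / 2) (1 / 2) f → MemLp f (ENNReal.ofReal q) volume →
      eLpNorm (E (dil θ f)) (ENNReal.ofReal q) volume ≤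
        C * eLpNorm f (ENNReal.ofReal q) volume) :
    EI q (1 / 2) (1 / 2 / θ) := by
  obtain ⟨C, hC⟩ := h
  obtain ⟨K, hK⟩ := scale_norm (ENNReal.ofReal q) (inv_ne_zero hθ.ne')
  refine ⟨C * K, fun g hg hL => ?_⟩
  have hm : Measurable (fun x : ℝ × ℝ => g (x.1, θ⁻¹ * x.2)) := hg.m.comp (by fun_prop)
  have hR : Rc (1 / 2) (1 / 2) (fun x : ℝ × ℝ => g (x.1, θ⁻¹ * x.2)) := by
    refine ⟨hm, fun x hx => ?_⟩
    obtain ⟨h1, h2⟩ := hg.s _ hx
    refine ⟨h1, ?_⟩
    have h2' : |θ⁻¹ * x.2| ≤ 1 / 2 / θ := h2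
    rw [abs_mul, abs_of_pos (inv_pos.mpr hθ), inv_mul_eq_div, div_le_div_iff_of_pos_right hθ] at h2'
    exact h2'
  have hM : MemLp (fun x : ℝ × ℝ => g (x.1, θ⁻¹ * x.2)) (ENNReal.ofReal q) volume :=
    ⟨hm.aestronglyMeasurable, lt_of_le_of_lt (hK g hg.m) (ENNReal.mul_lt_top
      ENNReal.coe_lt_top hL.2)⟩
  have e : dil θ (fun x : ℝ × ℝ => g (x.1, θ⁻¹ * x.2)) = g := by
    funext x
    unfold dil
    simp only
    rw [← mul_assoc, inv_mul_cancel₀ hθ.ne', one_mul]
  have h1 := hC _ hR hM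
  rw [e] at h1
  refine h1.trans ?_
  rw [ENNReal.coe_mul, mul_assoc]
  exact mul_le_mul_right (hK g hg.m) _

/-- if the inequality fails there is one function all of whose dilates in a countable set are
bad -/
theorem dil_bad {q : ℝ} (hq : 1 ≤ q) (hQ : ¬ EI q (1 / 2) (1 / 2)) (D : Set ℝ)
    (hD : D.Countable) (hD0 : ∀ θ ∈ D, 0 < θ) :
    ∃ f : ℝ × ℝ → ℂ, Rc (1 / 2) (1 / 2) f ∧ MemLp f (ENNReal.ofReal q) volume ∧
      ∀ θ ∈ D, eLpNorm (E (dil θ f)) (ENNReal.ofReal q) volume = ⊤ := by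
  have : Countable D := hD.to_subtype
  have key := bad_fun hq (ι := D)
    (fun θ x => (x.1, (θ : ℝ) * x.2)) (fun θ => by fun_prop) ?_ ?_
  · obtain ⟨f, h1, h2, h3⟩ := key
    exact ⟨f, h1, h2, fun θ hθ => h3 ⟨θ, hθ⟩⟩
  · rintro ⟨θ, hθ⟩
    have hp := hD0 θ hθ
    refine ⟨Real.toNNReal θ⁻¹, fun f hf => ?_⟩
    exact (Pool.Agent.Dil.L4A_.lintegral_scale hp hf.enorm).le
  · rintro ⟨θ, hθ⟩ h
    have hp := hD0 θ hθ
    exact hQ ((dil_small hp h).all hq (by norm_num) (by positivity) _ _)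

/-- continuity in the parameter -/
theorem dil_cont {f : ℝ × ℝ → ℂ} (hf : Measurable f) (hI : Integrable f) (ξ : ℝ × ℝ × ℝ) :
    Continuous (fun t : ℝ => E (dil (Real.exp t) f) ξ) := by
  have e : (fun t : ℝ => E (dil (Real.exp t) f) ξ) = fun t : ℝ =>
      (((Real.exp t)⁻¹ : ℝ) : ℂ) * ∫ x : ℝ × ℝ, u ((ξ.1 * x.1 + ξ.2.2 * x.1 ^ 2) +
        (ξ.2.1 / Real.exp t * x.2 + ξ.2.2 / Real.exp t ^ 2 * x.2 ^ 2)) * f x := by
    funext t
    exact Pool.Agent.Dil.L4A_.E_dil hf (Real.exp_pos t) ξ.1 ξ.2.1 ξ.2.2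
  rw [e]
  refine Continuous.mul ?_ ?_
  · exact Complex.continuous_ofReal.comp (Real.continuous_exp.inv₀ fun t => (Real.exp_pos t).ne')
  · refine continuous_of_dominated (bound := fun x => ‖f x‖) ?_ ?_ hI.norm ?_
    · intro t
      exact ((measurable_u.comp (by fun_prop)).mul hf).aestronglyMeasurable
    · intro t
      refine Eventually.of_forall fun x => ?_
      rw [norm_mul, Pool.Agent.Restr.norm_u, one_mul]
    · refine Eventually.of_forall fun x => ?_
      refine Continuous.mul ?_ continuous_const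
      unfold u
      have h0 : ∀ t : ℝ, Real.exp t ≠ 0 := fun t => (Real.exp_pos t).ne'
      have h1 : Continuous fun t : ℝ => (ξ.1 * x.1 + ξ.2.2 * x.1 ^ 2) +
          (ξ.2.1 / Real.exp t * x.2 + ξ.2.2 / Real.exp t ^ 2 * x.2 ^ 2) := by
        refine continuous_const.add (Continuous.add ?_ ?_)
        · exact (continuous_const.div Real.continuous_exp h0).mul continuous_const
        · exact (continuous_const.div (Real.continuous_exp.pow 2)
            (fun t => pow_ne_zero 2 (h0 t))).mul continuous_const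
      exact Complex.continuous_exp.comp ((continuous_const.mul
        (Complex.continuous_ofReal.comp h1)).neg)

/-- closed sublevel sets of the norm, for a pointwise continuous family -/
theorem closed_sub {Θ : Type*} [TopologicalSpace Θ] [FirstCountableTopology Θ] {p : ℝ≥0∞}
    (Φ : Θ → ℝ × ℝ × ℝ → ℂ) (hm : ∀ θ, Measurable (Φ θ)) (hc : ∀ ξ, Continuous fun θ => Φ θ ξ)
    (N : ℝ≥0∞) : IsClosed {θ : Θ | eLpNorm (Φ θ) p volume ≤ N} := by
  refine IsSeqClosed.isClosed ?_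
  intro s θ0 hs hlim
  have h2 := Lp.eLpNorm_lim_le_liminf_eLpNorm (p := p) (μ := (volume : Measure (ℝ × ℝ × ℝ)))
    (f := fun n => Φ (s n)) (fun n => (hm (s n)).aestronglyMeasurable) (Φ θ0)
    (Eventually.of_forall fun ξ => ((hc ξ).tendsto θ0).comp hlim)
  refine h2.trans ?_
  have h3 : liminf (fun n => eLpNorm (Φ (s n)) p volume) atTop ≤
      liminf (fun _ : ℕ => N) atTop := liminf_le_liminf (Eventually.of_forall hs)
  simpa using h3

/-- if every exceptional set is countable then the inequality holds -/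
theorem dil_countable {q : ℝ} (hq : 1 ≤ q)
    (h : ∀ f : ℝ × ℝ → ℂ, Rc (1 / 2) (1 / 2) f → MemLp f (ENNReal.ofReal q) volume →
      {θ : ℝ | 0 < θ ∧ eLpNorm (E (dil θ f)) (ENNReal.ofReal q) volume = ⊤}.Countable) :
    EI q (1 / 2) (1 / 2) := by
  by_contra hQ
  obtain ⟨f, hR, hL, hbad⟩ := dil_bad hq hQ (range fun r : ℚ => Real.exp r)
    (countable_range _) (by rintro _ ⟨r, rfl⟩; exact Real.exp_pos _)
  have hI := hR.integrable hq hL
  have hcl : ∀ N : ℕ, IsClosed {t : ℝ |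
      eLpNorm (E (dil (Real.exp t) f)) (ENNReal.ofReal q) volume ≤ (N : ℝ≥0∞)} := fun N =>
    closed_sub (fun t : ℝ => E (dil (Real.exp t) f))
      (fun t => Pool.Agent.Restr.measurable_E (hR.m.comp (by fun_prop)))
      (fun ξ => dil_cont hR.m hI ξ) N
  have hB : {t : ℝ | eLpNorm (E (dil (Real.exp t) f)) (ENNReal.ofReal q) volume = ⊤}.Countable := by
    refine ((h f hR hL).preimage Real.exp_injective).mono ?_
    intro t ht
    exact ⟨Real.exp_pos t, ht⟩
  have : Countable {t : ℝ | eLpNorm (E (dil (Real.exp t) f)) (ENNReal.ofReal q) volume = ⊤} :=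
    hB.to_subtype
  obtain ⟨i, hi⟩ := nonempty_interior_of_iUnion_of_closed
    (ι := ℕ ⊕ {t : ℝ | eLpNorm (E (dil (Real.exp t) f)) (ENNReal.ofReal q) volume = ⊤})
    (f := Sum.elim (fun N : ℕ => {t : ℝ |
      eLpNorm (E (dil (Real.exp t) f)) (ENNReal.ofReal q) volume ≤ (N : ℝ≥0∞)})
      (fun t => {(t : ℝ)})) (by
        rintro (N | t)
        · exact hcl N
        · exact isClosed_singleton) (by
        refine eq_univ_of_forall fun t => ?_
        by_cases ht : eLpNorm (E (dil (Real.exp t) f)) (ENNReal.ofReal q) volume = ⊤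
        · exact mem_iUnion.mpr ⟨Sum.inr ⟨t, ht⟩, rfl⟩
        · obtain ⟨N, hN⟩ := ENNReal.exists_nat_gt ht
          exact mem_iUnion.mpr ⟨Sum.inl N, hN.le⟩)
  rcases i with N | t
  · obtain ⟨r, hr⟩ := Rat.isDenseEmbedding_coe_real.dense.exists_mem_open isOpen_interior hi
    have hr' := interior_subset hr
    have h1 : eLpNorm (E (dil (Real.exp r) f)) (ENNReal.ofReal q) volume ≤ (N : ℝ≥0∞) := hr'
    rw [hbad _ ⟨r, rfl⟩] at h1
    exact absurd h1 (by simp)
  · have h1 : interior ({(t : ℝ)} : Set ℝ) = ∅ := interior_singleton _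
    simp only [Sum.elim_inr] at hi
    rw [h1] at hi
    exact not_nonempty_empty hi

end Pool.Agent.Bai
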