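import Pool.Agent.Bai.ShrC

set_option autoImplicit false

/-!
# The extension inequality and the size of the exceptional sets
-/

namespace Pool.Agent.Bai

open MeasureTheory Set Filter
open Pool.Agent.Restr (u E measurable_u)
open Pool.Agent.Shr (shr)
open Pool.Agent.Dil (dil)
open scoped ENNReal NNReal Topology

theorem rc_of_compact {f : ℝ × ℝ → ℂ} (hf : Measurable f) (hc : HasCompactSupport f) :
    ∃ R : ℝ, Rc R R f := by
  obtain ⟨R, hR⟩ := hc.isBounded.subset_closedBall 0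
  refine ⟨R, hf, fun x hx => ?_⟩
  have h1 : x ∈ Metric.closedBall (0 : ℝ × ℝ) R := hR (subset_tsupport f hx)
  rw [mem_closedBall_zero_iff, Prod.norm_def, Real.norm_eq_abs, Real.norm_eq_abs,
    max_le_iff] at h1
  exact h1

theorem Rc.compact {a b : ℝ} {f : ℝ × ℝ → ℂ} (h : Rc a b f) : HasCompactSupport f := by
  refine HasCompactSupport.intro (K := RR a b) (isCompact_Icc.prod isCompact_Icc) fun x hx => ?_
  by_contra hn
  exact hx (h.mem hn)

/-- the inequality on the disc of radius `1/2` -/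
theorem disc_iff {q : ℝ} (hq : 1 ≤ q) :
    (∃ C : ℝ≥0, ∀ f : ℝ × ℝ → ℂ, Measurable f → (∀ x : ℝ × ℝ, 1 / 4 < x.1 ^ 2 + x.2 ^ 2 → f x = 0) →
      MemLp f (ENNReal.ofReal q) volume →
      eLpNorm (E f) (ENNReal.ofReal q) volume ≤ C * eLpNorm f (ENNReal.ofReal q) volume) ↔
    EI q (1 / 2) (1 / 2) := by
  constructor
  · rintro ⟨C, hC⟩
    have h : EI q (1 / 4) (1 / 4) := by
      refine ⟨C, fun f hf hL => hC f hf.m (fun x hx => ?_) hL⟩
      by_contra hn
      obtain ⟨h1, h2⟩ := hf.s x hn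
      have h3 : x.1 ^ 2 ≤ (1 / 4) ^ 2 := sq_le_sq.2 (h1.trans (le_abs_self _))
      have h4 : x.2 ^ 2 ≤ (1 / 4) ^ 2 := sq_le_sq.2 (h2.trans (le_abs_self _))
      norm_num at h3 h4
      linarith
    exact h.all hq (by norm_num) (by norm_num) _ _
  · rintro ⟨C, hC⟩
    refine ⟨C, fun f hf hs hL => hC f ⟨hf, fun x hx => ?_⟩ hL⟩
    have hn : ¬ 1 / 4 < x.1 ^ 2 + x.2 ^ 2 := fun h => hx (hs x h)
    push Not at hn
    constructor
    · refine abs_le_of_sq_le_sq ?_ (by norm_num)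
      nlinarith [sq_nonneg x.2]
    · refine abs_le_of_sq_le_sq ?_ (by norm_num)
      nlinarith [sq_nonneg x.1]

theorem EI.dil {q : ℝ} (hq : 1 ≤ q) (h : EI q (1 / 2) (1 / 2)) {f : ℝ × ℝ → ℂ}
    (hf : Measurable f) (hc : HasCompactSupport f) (hL : MemLp f (ENNReal.ofReal q) volume)
    {θ : ℝ} (hθ : 0 < θ) : eLpNorm (E (Pool.Agent.Dil.dil θ f)) (ENNReal.ofReal q) volume ≠ ⊤ := by
  obtain ⟨R, hR⟩ := rc_of_compact hf hc
  obtain ⟨C, hC⟩ := h.all hq (by norm_num) (by norm_num) R (R / θ)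
  obtain ⟨K, hK⟩ := scale_norm (ENNReal.ofReal q) hθ.ne'
  have hm : Measurable (Pool.Agent.Dil.dil θ f) := hf.comp (by fun_prop)
  have hR' : Rc R (R / θ) (Pool.Agent.Dil.dil θ f) := by
    refine ⟨hm, fun x hx => ?_⟩
    obtain ⟨h1, h2⟩ := hR.s _ hx
    have h2' : |θ * x.2| ≤ R := h2
    rw [abs_mul, abs_of_pos hθ] at h2'
    refine ⟨h1, ?_⟩
    rw [le_div_iff₀ hθ, mul_comm]
    exact h2'
  have hM : eLpNorm (Pool.Agent.Dil.dil θ f) (ENNReal.ofReal q) volume < ⊤ :=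
    lt_of_le_of_lt (hK f hf) (ENNReal.mul_lt_top ENNReal.coe_lt_top hL.2)
  exact ne_of_lt (lt_of_le_of_lt (hC _ hR' ⟨hm.aestronglyMeasurable, hM⟩)
    (ENNReal.mul_lt_top ENNReal.coe_lt_top hM))

theorem EI.shr {q : ℝ} (hq : 1 ≤ q) (h : EI q (1 / 2) (1 / 2)) {f : ℝ × ℝ → ℂ}
    (hf : Measurable f) (hc : HasCompactSupport f) (hL : MemLp f (ENNReal.ofReal q) volume)
    (φ : C(ℝ, ℝ)) : eLpNorm (E (Pool.Agent.Shr.shr φ f)) (ENNReal.ofReal q) volume ≠ ⊤ := by
  obtain ⟨R, hR⟩ := rc_of_compact hf hc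
  obtain ⟨M, hM⟩ := (isCompact_Icc (a := -R) (b := R)).exists_bound_of_continuousOn
    φ.continuous.continuousOn
  obtain ⟨C, hC⟩ := h.all hq (by norm_num) (by norm_num) R (R + M)
  have hmp := Pool.Agent.Shr.CUT_.mp_shear φ.continuous.measurable
  have hm : Measurable (Pool.Agent.Shr.shr φ f) := hf.comp hmp.measurable
  have hR' : Rc R (R + M) (Pool.Agent.Shr.shr φ f) := by
    refine ⟨hm, fun x hx => ?_⟩
    obtain ⟨h1, h2⟩ := hR.s (x.1, x.2 + φ x.1) hx
    simp only at h1 h2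
    have h3 := hM x.1 (abs_le.mp h1)
    rw [Real.norm_eq_abs] at h3
    refine ⟨h1, ?_⟩
    have h4 := abs_le.mp h2
    have h5 := abs_le.mp h3
    exact abs_le.mpr ⟨by linarith [h4.1, h5.2], by linarith [h4.2, h5.1]⟩
  have e1 : eLpNorm (Pool.Agent.Shr.shr φ f) (ENNReal.ofReal q) volume =
      eLpNorm f (ENNReal.ofReal q) volume :=
    eLpNorm_comp_measurePreserving hf.aestronglyMeasurable hmp
  have hM : MemLp (Pool.Agent.Shr.shr φ f) (ENNReal.ofReal q) volume :=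
    ⟨hm.aestronglyMeasurable, by rw [e1]; exact hL.2⟩
  exact ne_of_lt (lt_of_le_of_lt (hC _ hR' hM) (ENNReal.mul_lt_top ENNReal.coe_lt_top hM.2))

/-- The extension inequality holds iff every compactly supported function has only countably many
bad dilates. -/
theorem dil_iff {q : ℝ} (hq : 1 ≤ q) : EI q (1 / 2) (1 / 2) ↔
    ∀ f : ℝ × ℝ → ℂ, Measurable f → HasCompactSupport f → MemLp f (ENNReal.ofReal q) volume →
      {θ : ℝ | 0 < θ ∧ eLpNorm (E (dil θ f)) (ENNReal.ofReal q) volume = ⊤}.Countable := by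
  constructor
  · intro h f hf hc hL
    refine (countable_empty (α := ℝ)).mono ?_
    rintro θ ⟨h1, h2⟩
    exact h.dil hq hf hc hL h1 h2
  · intro h
    exact dil_countable hq fun f hR hL => h f hR.m hR.compact hL

/-- The extension inequality holds iff every compactly supported function has a good rational
dilate. -/
theorem dil_rat_iff {q : ℝ} (hq : 1 ≤ q) : EI q (1 / 2) (1 / 2) ↔
    ∀ f : ℝ × ℝ → ℂ, Measurable f → HasCompactSupport f → MemLp f (ENNReal.ofReal q) volume →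
      ∃ r : ℚ, 0 < r ∧ eLpNorm (E (dil (r : ℝ) f)) (ENNReal.ofReal q) volume ≠ ⊤ := by
  constructor
  · intro h f hf hc hL
    exact ⟨1, one_pos, h.dil hq hf hc hL (by norm_num)⟩
  · intro h
    by_contra hQ
    obtain ⟨f, hR, hL, hbad⟩ := dil_bad hq hQ ((fun r : ℚ => (r : ℝ)) '' {r : ℚ | 0 < r})
      ((to_countable _).image _) (by
        rintro _ ⟨r, hr, rfl⟩
        have hr' : 0 < r := hr
        show (0 : ℝ) < (r : ℝ)
        exact_mod_cast hr')
    obtain ⟨r, hr, hg⟩ := h f hR.m hR.compact hL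
    exact hg (hbad _ ⟨r, hr, rfl⟩)

/-- The extension inequality holds iff the bad shears of every compactly supported function form a
meagre set. -/
theorem shr_iff {q : ℝ} (hq : 1 ≤ q) : EI q (1 / 2) (1 / 2) ↔
    ∀ f : ℝ × ℝ → ℂ, Measurable f → HasCompactSupport f → MemLp f (ENNReal.ofReal q) volume →
      IsMeagre {φ : C(ℝ, ℝ) | eLpNorm (E (shr φ f)) (ENNReal.ofReal q) volume = ⊤} := by
  constructor
  · intro h f hf hc hL
    have e : {φ : C(ℝ, ℝ) | eLpNorm (E (shr φ f)) (ENNReal.ofReal q) volume = ⊤} = ∅ := by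
      rw [eq_empty_iff_forall_notMem]
      intro φ hφ
      exact h.shr hq hf hc hL φ hφ
    rw [e]
    exact IsMeagre.empty
  · intro h
    exact shr_meagre hq fun f hR hL => h f hR.m hR.compact hL

end Pool.Agent.Bai
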