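import Pool.Agent.Bai.Core

set_option autoImplicit false

/-!
# One bad function for countably many transformations of the plane
-/

namespace Pool.Agent.Bai

open MeasureTheory Set Filter
open Pool.Agent.Restr (u E)
open Pool.Agent.H27.Fib (enorm_E_le)
open scoped ENNReal NNReal Topology

/-- the unit square -/
abbrev UQ : Set (ℝ × ℝ) := RR (1 / 2) (1 / 2)

theorem volume_UQ : volume UQ = 1 := by
  show volume (Icc (-(1 / 2) : ℝ) (1 / 2) ×ˢ Icc (-(1 / 2) : ℝ) (1 / 2)) = 1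
  rw [Measure.volume_eq_prod, Measure.prod_prod, Real.volume_Icc]
  norm_num

instance : IsProbabilityMeasure (volume.restrict UQ) :=
  ⟨by rw [Measure.restrict_apply_univ, volume_UQ]⟩

/-- the function on the plane -/
noncomputable def rep {p : ℝ≥0∞} (F : Lp ℂ p (volume.restrict UQ)) : ℝ × ℝ → ℂ :=
  UQ.indicator (F : ℝ × ℝ → ℂ)

theorem rep_meas {p : ℝ≥0∞} (F : Lp ℂ p (volume.restrict UQ)) : Measurable (rep F) :=
  (Lp.stronglyMeasurable F).measurable.indicator (measurableSet_RR _ _)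

theorem rep_rc {p : ℝ≥0∞} (F : Lp ℂ p (volume.restrict UQ)) : Rc (1 / 2) (1 / 2) (rep F) := by
  refine ⟨rep_meas F, fun x hx => ?_⟩
  have h : x ∈ UQ := by
    by_contra hn
    exact hx (indicator_of_notMem hn _)
  exact ⟨abs_le.mpr h.1, abs_le.mpr h.2⟩

theorem rep_memLp {p : ℝ≥0∞} (F : Lp ℂ p (volume.restrict UQ)) : MemLp (rep F) p volume :=
  (memLp_indicator_iff_restrict (measurableSet_RR _ _)).mpr (Lp.memLp F)

theorem rep_L1 {p : ℝ≥0∞} (hp : 1 ≤ p) (F : Lp ℂ p (volume.restrict UQ)) :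
    ∫⁻ x, ‖rep F x‖ₑ ≤ ‖F‖ₑ := by
  have e1 : ∫⁻ x, ‖rep F x‖ₑ = ∫⁻ x in UQ, ‖(F : ℝ × ℝ → ℂ) x‖ₑ := by
    rw [← lintegral_indicator (measurableSet_RR _ _)]
    refine lintegral_congr fun x => ?_
    unfold rep
    by_cases h : x ∈ UQ
    · rw [indicator_of_mem h, indicator_of_mem h]
    · rw [indicator_of_notMem h, indicator_of_notMem h, enorm_zero]
  rw [e1, ← eLpNorm_one_eq_lintegral_enorm]
  refine (eLpNorm_le_eLpNorm_of_exponent_le hp (Lp.aestronglyMeasurable F)).trans ?_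
  rw [Lp.enorm_def]

theorem E_congr {f g : ℝ × ℝ → ℂ} (h : f =ᵐ[volume] g) (ξ : ℝ × ℝ × ℝ) : E f ξ = E g ξ := by
  unfold E
  refine integral_congr_ae ?_
  filter_upwards [h] with x hx
  rw [hx]

theorem ae_comp {τ : ℝ × ℝ → ℝ × ℝ} {K : ℝ≥0}
    (hK : ∀ f : ℝ × ℝ → ℂ, Measurable f → ∫⁻ x, ‖f (τ x)‖ₑ ≤ K * ∫⁻ x, ‖f x‖ₑ)
    (hτ : Measurable τ) {f g : ℝ × ℝ → ℂ} (hf : Measurable f) (hg : Measurable g)
    (h : f =ᵐ[volume] g) : (fun x => f (τ x)) =ᵐ[volume] fun x => g (τ x) := by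
  have hd : Measurable fun y => f y - g y := hf.sub hg
  have hd2 : Measurable fun y => f (τ y) - g (τ y) := hd.comp hτ
  have h1 : ∫⁻ x, ‖(fun y => f y - g y) x‖ₑ = 0 := by
    rw [lintegral_eq_zero_iff hd.enorm]
    filter_upwards [h] with x hx
    simp [hx]
  have h2 := hK (fun y => f y - g y) (hf.sub hg)
  rw [h1, mul_zero, nonpos_iff_eq_zero, lintegral_eq_zero_iff hd2.enorm] at h2
  filter_upwards [h2] with x hx
  have hx' : ‖f (τ x) - g (τ x)‖ₑ = 0 := hx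
  exact sub_eq_zero.mp (enorm_eq_zero.mp hx')

theorem comp_integrable {τ : ℝ × ℝ → ℝ × ℝ} {K : ℝ≥0}
    (hK : ∀ f : ℝ × ℝ → ℂ, Measurable f → ∫⁻ x, ‖f (τ x)‖ₑ ≤ K * ∫⁻ x, ‖f x‖ₑ)
    (hτ : Measurable τ) {f : ℝ × ℝ → ℂ} (hf : Measurable f) (hL : ∫⁻ x, ‖f x‖ₑ ≠ ⊤) :
    Integrable (fun x => f (τ x)) :=
  ⟨(hf.comp hτ).aestronglyMeasurable,
    lt_of_le_of_lt (hK f hf) (ENNReal.mul_lt_top ENNReal.coe_lt_top (lt_top_iff_ne_top.2 hL))⟩

/-- one bad function for countably many transformations -/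
theorem bad_fun {q : ℝ} (hq : 1 ≤ q) {ι : Type} [Countable ι] (τ : ι → ℝ × ℝ → ℝ × ℝ)
    (hτ : ∀ i, Measurable (τ i))
    (hK : ∀ i, ∃ K : ℝ≥0, ∀ f : ℝ × ℝ → ℂ, Measurable f →
      ∫⁻ x, ‖f (τ i x)‖ₑ ≤ K * ∫⁻ x, ‖f x‖ₑ)
    (hbad : ∀ i, ¬ ∃ C : ℝ≥0, ∀ f : ℝ × ℝ → ℂ, Rc (1 / 2) (1 / 2) f →
      MemLp f (ENNReal.ofReal q) volume →
      eLpNorm (E (fun x => f (τ i x))) (ENNReal.ofReal q) volume ≤
        C * eLpNorm f (ENNReal.ofReal q) volume) :
    ∃ f : ℝ × ℝ → ℂ, Rc (1 / 2) (1 / 2) f ∧ MemLp f (ENNReal.ofReal q) volume ∧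
      ∀ i, eLpNorm (E (fun x => f (τ i x))) (ENNReal.ofReal q) volume = ⊤ := by
  have hp : 1 ≤ ENNReal.ofReal q := by
    rw [← ENNReal.ofReal_one]
    exact ENNReal.ofReal_le_ofReal hq
  have : Fact (1 ≤ ENNReal.ofReal q) := ⟨hp⟩
  have hL1 : ∀ F : Lp ℂ (ENNReal.ofReal q) (volume.restrict UQ), ∫⁻ x, ‖rep F x‖ₑ ≠ ⊤ := by
    intro F
    exact ne_of_lt (lt_of_le_of_lt (rep_L1 hp F) enorm_lt_top)
  have key := abs_baire (X := Lp ℂ (ENNReal.ofReal q) (volume.restrict UQ))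
    (volume : Measure (ℝ × ℝ × ℝ)) (ENNReal.ofReal q) hp
    (fun i F => E (fun x => rep F (τ i x)))
    (fun i F => (Pool.Agent.Restr.measurable_E ((rep_meas F).comp (hτ i))).aestronglyMeasurable)
    ?_ ?_ ?_ ?_
  · obtain ⟨F, hF⟩ := key
    exact ⟨rep F, rep_rc F, rep_memLp F, hF⟩
  · intro i F G ξ
    obtain ⟨K, hK⟩ := hK i
    have hae : rep (F + G) =ᵐ[volume] fun x => rep F x + rep G x := by
      have h1 : ∀ᵐ x ∂(volume.restrict UQ), (F + G : Lp ℂ (ENNReal.ofReal q) _) x = F x + G x :=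
        Lp.coeFn_add F G
      rw [ae_restrict_iff' (measurableSet_RR _ _)] at h1
      filter_upwards [h1] with x hx
      unfold rep
      by_cases h : x ∈ UQ
      · rw [indicator_of_mem h, indicator_of_mem h, indicator_of_mem h]
        exact hx h
      · rw [indicator_of_notMem h, indicator_of_notMem h, indicator_of_notMem h, add_zero]
    have h2 := ae_comp hK (hτ i) (rep_meas (F + G)) ((rep_meas F).add (rep_meas G)) hae
    show E (fun x => rep (F + G) (τ i x)) ξ = _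
    rw [E_congr h2 ξ]
    exact Pool.Agent.H27.Fib.E_add (comp_integrable hK (hτ i) (rep_meas F) (hL1 F))
      (comp_integrable hK (hτ i) (rep_meas G) (hL1 G)) ξ
  · intro i c F ξ
    obtain ⟨K, hK⟩ := hK i
    have hae : rep (c • F) =ᵐ[volume] fun x => (c : ℂ) * rep F x := by
      have h1 : ∀ᵐ x ∂(volume.restrict UQ), (c • F : Lp ℂ (ENNReal.ofReal q) _) x = (c • (F : ℝ × ℝ → ℂ)) x :=
        Lp.coeFn_smul c F
      rw [ae_restrict_iff' (measurableSet_RR _ _)] at h1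
      filter_upwards [h1] with x hx
      unfold rep
      by_cases h : x ∈ UQ
      · rw [indicator_of_mem h, indicator_of_mem h, hx h]
        rfl
      · rw [indicator_of_notMem h, indicator_of_notMem h, mul_zero]
    have h2 := ae_comp hK (hτ i) (rep_meas (c • F)) ((rep_meas F).const_mul (c : ℂ)) hae
    show E (fun x => rep (c • F) (τ i x)) ξ = _
    rw [E_congr h2 ξ]
    unfold E
    rw [← integral_const_mul]
    refine integral_congr_ae (Eventually.of_forall fun x => ?_)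
    simp only
    ring
  · intro i
    obtain ⟨K, hK⟩ := hK i
    refine ⟨K, fun F ξ => ?_⟩
    have h1 := (enorm_E_le (fun x => rep F (τ i x)) ξ).trans ((hK _ (rep_meas F)).trans
      (mul_le_mul_right (rep_L1 hp F) _))
    have h2 := ENNReal.toReal_mono (ENNReal.mul_ne_top ENNReal.coe_ne_top enorm_ne_top) h1
    rw [ENNReal.toReal_mul] at h2
    simpa using h2
  · intro i h
    apply hbad i
    obtain ⟨K, hK⟩ := hK i
    obtain ⟨C, hC⟩ := h
    refine ⟨C, fun f hf hL => ?_⟩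
    have hLr : MemLp f (ENNReal.ofReal q) (volume.restrict UQ) := hL.restrict UQ
    have hae : rep (hLr.toLp f) =ᵐ[volume] f := by
      have h1 : ∀ᵐ x ∂(volume.restrict UQ), (hLr.toLp f : ℝ × ℝ → ℂ) x = f x := hLr.coeFn_toLp
      rw [ae_restrict_iff' (measurableSet_RR _ _)] at h1
      filter_upwards [h1] with x hx
      unfold rep
      by_cases h : x ∈ UQ
      · rw [indicator_of_mem h]
        exact hx h
      · rw [indicator_of_notMem h]
        by_contra hn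
        exact h (hf.mem (Ne.symm hn))
    have h2 := ae_comp hK (hτ i) (rep_meas _) hf.m hae
    have h3 : E (fun x => rep (hLr.toLp f) (τ i x)) = E (fun x => f (τ i x)) := by
      funext ξ
      exact E_congr h2 ξ
    rw [← h3]
    refine (hC (hLr.toLp f)).trans ?_
    rw [Lp.enorm_toLp]
    exact mul_le_mul_right (eLpNorm_mono_measure f Measure.restrict_le_self) _

end Pool.Agent.Bai
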