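import Pool.Agent.Bai.DilC
import Pool.Agent.Shr.CUT

set_option autoImplicit false

/-!
# Shears: the exceptional sets are meagre for every function iff the inequality holds
-/

namespace Pool.Agent.Bai

open MeasureTheory Set Filter
open Pool.Agent.Restr (u E measurable_u)
open Pool.Agent.Shr (shr)
open scoped ENNReal NNReal Topology

/-- if the estimate holds under one continuous shear then it holds on a small square -/
theorem shr_small {q : ℝ} (hq : 1 ≤ q) (φ : C(ℝ, ℝ))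
    (h : ∃ C : ℝ≥0, ∀ f : ℝ × ℝ → ℂ, Rc (1 / 2) (1 / 2) f → MemLp f (ENNReal.ofReal q) volume →
      eLpNorm (E (shr φ f)) (ENNReal.ofReal q) volume ≤
        C * eLpNorm f (ENNReal.ofReal q) volume) :
    EI q (1 / 2) (1 / 2) := by
  obtain ⟨C, hC⟩ := h
  obtain ⟨δ, hδ, hφ⟩ := Metric.continuousAt_iff.mp (φ.continuous.continuousAt (x := 0)) (1 / 4)
    (by norm_num)
  obtain ⟨r, hr⟩ : ∃ r : ℝ, r = min (δ / 2) (1 / 4) := ⟨_, rfl⟩
  have hr0 : 0 < r := by rw [hr]; exact lt_min (by linarith) (by norm_num)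
  have hr1 : r < δ := by rw [hr]; exact lt_of_le_of_lt (min_le_left _ _) (by linarith)
  have hr2 : r ≤ 1 / 4 := by rw [hr]; exact min_le_right _ _
  have hsm : EI q r r := by
    refine ⟨C, fun g hg hL => ?_⟩
    have hb : Measurable fun t : ℝ => φ 0 - φ t := by
      exact measurable_const.sub φ.continuous.measurable
    have hmp := Pool.Agent.Shr.CUT_.mp_shear hb
    have hm : Measurable (shr (fun t => φ 0 - φ t) g) := hg.m.comp hmp.measurable
    have hR : Rc (1 / 2) (1 / 2) (shr (fun t => φ 0 - φ t) g) := by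
      refine ⟨hm, fun x hx => ?_⟩
      obtain ⟨h1, h2⟩ := hg.s (x.1, x.2 + (φ 0 - φ x.1)) hx
      simp only at h1 h2
      refine ⟨by linarith, ?_⟩
      have h3 : |φ x.1 - φ 0| < 1 / 4 := by
        have := hφ (x := x.1) (by rw [Real.dist_eq, sub_zero]; linarith)
        rwa [Real.dist_eq] at this
      have h4 := abs_lt.mp h3
      have h5 := abs_le.mp h2
      exact abs_le.mpr ⟨by linarith [h4.1, h5.1], by linarith [h4.2, h5.2]⟩
    have e1 : eLpNorm (shr (fun t => φ 0 - φ t) g) (ENNReal.ofReal q) volume =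
        eLpNorm g (ENNReal.ofReal q) volume :=
      eLpNorm_comp_measurePreserving hg.m.aestronglyMeasurable hmp
    have hM : MemLp (shr (fun t => φ 0 - φ t) g) (ENNReal.ofReal q) volume :=
      ⟨hm.aestronglyMeasurable, by rw [e1]; exact hL.2⟩
    have e2 : shr φ (shr (fun t => φ 0 - φ t) g) = fun x : ℝ × ℝ => g (x.1 + 0, x.2 + φ 0) := by
      funext x
      unfold shr
      simp only
      congr 2
      · ring
      · ring
    have h1 := hC _ hR hM
    rw [e2, e1, Pool.Agent.Shr.p_TRN q (by linarith) g hg.m 0 (φ 0)] at h1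
    exact h1
  exact hsm.all hq hr0 hr0 _ _

/-- if the inequality fails there is one function all of whose shears in a countable set are
bad -/
theorem shr_bad {q : ℝ} (hq : 1 ≤ q) (hQ : ¬ EI q (1 / 2) (1 / 2)) (D : Set C(ℝ, ℝ))
    (hD : D.Countable) :
    ∃ f : ℝ × ℝ → ℂ, Rc (1 / 2) (1 / 2) f ∧ MemLp f (ENNReal.ofReal q) volume ∧
      ∀ φ ∈ D, eLpNorm (E (shr φ f)) (ENNReal.ofReal q) volume = ⊤ := by
  have : Countable D := hD.to_subtype
  have key := bad_fun hq (ι := D)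
    (fun φ x => (x.1, x.2 + (φ : C(ℝ, ℝ)) x.1))
    (fun φ => (Pool.Agent.Shr.CUT_.mp_shear (φ : C(ℝ, ℝ)).continuous.measurable).measurable) ?_ ?_
  · obtain ⟨f, h1, h2, h3⟩ := key
    exact ⟨f, h1, h2, fun φ hφ => h3 ⟨φ, hφ⟩⟩
  · rintro ⟨φ, hφ⟩
    refine ⟨1, fun f hf => ?_⟩
    rw [ENNReal.coe_one, one_mul]
    exact ((Pool.Agent.Shr.CUT_.mp_shear φ.continuous.measurable).lintegral_comp hf.enorm).le
  · rintro ⟨φ, hφ⟩ h
    exact hQ (shr_small hq φ h)

/-- continuity in the shear -/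
theorem shr_cont {f : ℝ × ℝ → ℂ} (hf : Measurable f) (hI : Integrable f) (ξ : ℝ × ℝ × ℝ) :
    Continuous (fun φ : C(ℝ, ℝ) => E (shr φ f) ξ) := by
  have e : (fun φ : C(ℝ, ℝ) => E (shr φ f) ξ) = fun φ : C(ℝ, ℝ) =>
      ∫ x : ℝ × ℝ, u (ξ.1 * x.1 + (ξ.2.1 * (x.2 - φ x.1) +
        ξ.2.2 * (x.1 ^ 2 + (x.2 - φ x.1) ^ 2))) * f x := by
    funext φ
    have hb : Measurable fun t : ℝ => φ t := φ.continuous.measurable
    have hmp := Pool.Agent.Shr.CUT_.mp_shear hb
    have hmeas : Measurable fun x : ℝ × ℝ => u (ξ.1 * x.1 + (ξ.2.1 * (x.2 - φ x.1) +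
        ξ.2.2 * (x.1 ^ 2 + (x.2 - φ x.1) ^ 2))) * f x := by
      refine (measurable_u.comp ?_).mul hf
      have h1 : Measurable fun x : ℝ × ℝ => φ x.1 := hb.comp measurable_fst
      fun_prop
    have h2 := integral_map (μ := (volume : Measure (ℝ × ℝ))) hmp.measurable.aemeasurable
      (f := fun x : ℝ × ℝ => u (ξ.1 * x.1 + (ξ.2.1 * (x.2 - φ x.1) +
        ξ.2.2 * (x.1 ^ 2 + (x.2 - φ x.1) ^ 2))) * f x) hmeas.aestronglyMeasurable
    rw [hmp.map_eq] at h2
    rw [h2]
    unfold E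
    refine integral_congr_ae (Eventually.of_forall fun x => ?_)
    simp only [shr]
    congr 2
    ring
  rw [e]
  refine continuous_of_dominated (bound := fun x => ‖f x‖) ?_ ?_ hI.norm ?_
  · intro φ
    refine ((measurable_u.comp ?_).mul hf).aestronglyMeasurable
    have h1 : Measurable fun x : ℝ × ℝ => φ x.1 := φ.continuous.measurable.comp measurable_fst
    fun_prop
  · intro φ
    refine Eventually.of_forall fun x => ?_
    rw [norm_mul, Pool.Agent.Restr.norm_u, one_mul]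
  · refine Eventually.of_forall fun x => ?_
    refine Continuous.mul ?_ continuous_const
    unfold u
    have h1 : Continuous fun φ : C(ℝ, ℝ) => φ x.1 := continuous_eval_const x.1
    exact Complex.continuous_exp.comp ((continuous_const.mul
      (Complex.continuous_ofReal.comp (by fun_prop))).neg)

/-- if every exceptional set is meagre then the inequality holds -/
theorem shr_meagre {q : ℝ} (hq : 1 ≤ q)
    (h : ∀ f : ℝ × ℝ → ℂ, Rc (1 / 2) (1 / 2) f → MemLp f (ENNReal.ofReal q) volume →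
      IsMeagre {φ : C(ℝ, ℝ) | eLpNorm (E (shr φ f)) (ENNReal.ofReal q) volume = ⊤}) :
    EI q (1 / 2) (1 / 2) := by
  by_contra hQ
  obtain ⟨D, hDc, hDd⟩ := TopologicalSpace.exists_countable_dense C(ℝ, ℝ)
  obtain ⟨f, hR, hL, hbad⟩ := shr_bad hq hQ D hDc
  have hI := hR.integrable hq hL
  have hcl : ∀ N : ℕ, IsClosed {φ : C(ℝ, ℝ) |
      eLpNorm (E (shr φ f)) (ENNReal.ofReal q) volume ≤ (N : ℝ≥0∞)} := fun N =>
    closed_sub (fun φ : C(ℝ, ℝ) => E (shr φ f))
      (fun φ => Pool.Agent.Restr.measurable_E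
        (hR.m.comp (Pool.Agent.Shr.CUT_.mp_shear φ.continuous.measurable).measurable))
      (fun ξ => shr_cont hR.m hI ξ) N
  have hnd : ∀ N : ℕ, IsNowhereDense {φ : C(ℝ, ℝ) |
      eLpNorm (E (shr φ f)) (ENNReal.ofReal q) volume ≤ (N : ℝ≥0∞)} := by
    intro N
    rw [(hcl N).isNowhereDense_iff]
    by_contra hne
    obtain ⟨φ, hφ1, hφ2⟩ := hDd.inter_open_nonempty _ isOpen_interior
      (nonempty_iff_ne_empty.mpr hne)
    have h1 := interior_subset hφ1
    have h2 : eLpNorm (E (shr φ f)) (ENNReal.ofReal q) volume ≤ (N : ℝ≥0∞) := h1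
    rw [hbad φ hφ2] at h2
    exact absurd h2 (by simp)
  have hgood : IsMeagre (⋃ N : ℕ, {φ : C(ℝ, ℝ) |
      eLpNorm (E (shr φ f)) (ENNReal.ofReal q) volume ≤ (N : ℝ≥0∞)}) :=
    isMeagre_iUnion fun N => (hnd N).isMeagre
  have hall : IsMeagre (univ : Set C(ℝ, ℝ)) := by
    refine ((h f hR hL).union hgood).mono fun φ _ => ?_
    by_cases hφ : eLpNorm (E (shr φ f)) (ENNReal.ofReal q) volume = ⊤
    · exact Or.inl hφ
    · obtain ⟨N, hN⟩ := ENNReal.exists_nat_gt hφ
      exact Or.inr (mem_iUnion.mpr ⟨N, hN.le⟩)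
  have hne : (univ : Set C(ℝ, ℝ)).Nonempty := ⟨0, mem_univ _⟩
  exact not_isMeagre_of_isOpen isOpen_univ hne hall

end Pool.Agent.Bai
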